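import Mathlib

set_option autoImplicit false

/-!
# Newton's inequalities for stable GKK tau-matrices: all orders and all indices

Let `1 ≤ j ≤ n - 1`. All stable GKK tau-matrices of order `n` satisfy the Newton inequality
`c_j ^ 2 ≥ c_{j-1} c_{j+1}` if and only if `j = 1` or `j = n - 1`; in these two cases all GKK matrices
satisfy it, and in all other cases it fails by an arbitrarily large factor.

The matrices are the direct sums of positive numbers and of the matrix of order 4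
`[[v², 2v-1, 2v-1, 2v-1], [v², 2v, 2v-1, 2v-1], [v², 0, 2v, 2v-1], [v², 0, 0, 2v]]`, `v` large.
-/

namespace Pool.Agent.Results.MP_ba9f40_al.AllOrders

open Matrix

/-- `A(α,β)`: the submatrix with rows `α` and columns `β`, where increasing index sequences of
length `k` in `{1,…,n}` are order embeddings `Fin k ↪o Fin n`. -/
def sub {n k : ℕ} (A : Matrix (Fin n) (Fin n) ℂ) (α β : Fin k ↪o Fin n) :
    Matrix (Fin k) (Fin k) ℂ :=
  A.submatrix α β

/-- The minor `A[α,β]`. -/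
noncomputable def minor {n k : ℕ} (A : Matrix (Fin n) (Fin n) ℂ) (α β : Fin k ↪o Fin n) : ℂ :=
  (sub A α β).det

/-- The set of indices occurring in an index sequence. -/
def idx {n k : ℕ} (α : Fin k ↪o Fin n) : Finset (Fin n) := Finset.univ.image α

/-- `A` is a P-matrix: every principal minor `A[α]`, `α` nonempty, is a positive real number. -/
def IsP {n : ℕ} (A : Matrix (Fin n) (Fin n) ℂ) : Prop :=
  ∀ (k : ℕ) (α : Fin k ↪o Fin n), 0 < k → (minor A α α).im = 0 ∧ 0 < (minor A α α).re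

/-- `A` is weakly sign-symmetric: `A[α,β] A[β,α]` is a nonnegative real number for all minors of
dispersal `|α| - |α ∩ β| = 1`. -/
def IsWSS {n : ℕ} (A : Matrix (Fin n) (Fin n) ℂ) : Prop :=
  ∀ (k : ℕ) (α β : Fin k ↪o Fin n), (idx α ∩ idx β).card + 1 = k →
    (minor A α β * minor A β α).im = 0 ∧ 0 ≤ (minor A α β * minor A β α).re

/-- GKK matrices: weakly sign-symmetric P-matrices. -/
def IsGKK {n : ℕ} (A : Matrix (Fin n) (Fin n) ℂ) : Prop := IsP A ∧ IsWSS A

/-- `l(B)`: the least real eigenvalue of `B`, and `∞` if `B` has no real eigenvalue. -/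
noncomputable def l {k : ℕ} (B : Matrix (Fin k) (Fin k) ℂ) : EReal :=
  sInf {x : EReal | ∃ r : ℝ, x = (r : EReal) ∧ (r : ℂ) ∈ spectrum ℂ B}

/-- `A` is an omega-matrix: `l(A(α)) ≤ l(A(β)) < ∞` whenever `∅ ≠ β ⊆ α`. -/
def IsOmega {n : ℕ} (A : Matrix (Fin n) (Fin n) ℂ) : Prop :=
  ∀ (k m : ℕ) (β : Fin k ↪o Fin n) (α : Fin m ↪o Fin n), 0 < k → idx β ⊆ idx α →
    l (sub A α α) ≤ l (sub A β β) ∧ l (sub A β β) < ⊤

/-- `A` is a tau-matrix: an omega-matrix with `l(A) ≥ 0`. -/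
def IsTau {n : ℕ} (A : Matrix (Fin n) (Fin n) ℂ) : Prop := IsOmega A ∧ 0 ≤ l A

/-- `A` is stable: every eigenvalue has positive real part. -/
def IsStable {n : ℕ} (A : Matrix (Fin n) (Fin n) ℂ) : Prop :=
  ∀ z ∈ spectrum ℂ A, 0 < z.re

/-- `c_j`: the normalised sum of the principal minors of order `j`. -/
noncomputable def c {n : ℕ} (A : Matrix (Fin n) (Fin n) ℂ) (j : ℕ) : ℂ :=
  (∑ s ∈ (Finset.univ : Finset (Fin n)).powersetCard j,
    minor A (s.orderEmbOfFin rfl) (s.orderEmbOfFin rfl)) / (n.choose j : ℂ)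

section General

variable {n k m : ℕ}

theorem mem_spec (B : Matrix (Fin k) (Fin k) ℂ) (z : ℂ) :
    z ∈ spectrum ℂ B ↔ (algebraMap ℂ (Matrix (Fin k) (Fin k) ℂ) z - B).det = 0 := by
  rw [spectrum.mem_iff, Matrix.isUnit_iff_isUnit_det, isUnit_iff_ne_zero, not_not]

theorem l_le {B : Matrix (Fin k) (Fin k) ℂ} {r t : ℝ} (h : (r : ℂ) ∈ spectrum ℂ B)
    (hr : r ≤ t) : l B ≤ (t : EReal) :=
  le_trans (sInf_le (show (r : EReal) ∈ {x : EReal | ∃ r : ℝ, x = (r : EReal) ∧
    (r : ℂ) ∈ spectrum ℂ B} from ⟨r, rfl, h⟩)) (EReal.coe_le_coe_iff.mpr hr)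

theorem le_l {B : Matrix (Fin k) (Fin k) ℂ} {t : ℝ}
    (h : ∀ r : ℝ, (r : ℂ) ∈ spectrum ℂ B → t ≤ r) : (t : EReal) ≤ l B := by
  refine le_sInf ?_
  rintro x ⟨r, rfl, hr⟩
  exact EReal.coe_le_coe_iff.mpr (h r hr)

/-- the principal minor on a set of indices -/
noncomputable def pm (A : Matrix (Fin n) (Fin n) ℂ) (s : Finset (Fin n)) : ℂ :=
  (A.submatrix (Subtype.val : s → Fin n) (Subtype.val : s → Fin n)).det

theorem minor_eq_pm (A : Matrix (Fin n) (Fin n) ℂ) (α : Fin k ↪o Fin n) :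
    minor A α α = pm A (idx α) := by
  have hb : Function.Bijective
      (fun i => (⟨α i, Finset.mem_image_of_mem _ (Finset.mem_univ i)⟩ : idx α)) := by
    constructor
    · intro i j h
      exact α.injective (congrArg Subtype.val h)
    · rintro ⟨x, hx⟩
      obtain ⟨i, _, hi⟩ := Finset.mem_image.1 hx
      exact ⟨i, Subtype.ext hi⟩
  rw [pm, ← Matrix.det_submatrix_equiv_self (Equiv.ofBijective _ hb)]
  rfl

theorem idx_orderEmb {k : ℕ} (s : Finset (Fin n)) (h : s.card = k) :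
    idx (s.orderEmbOfFin h) = s := Finset.image_orderEmbOfFin_univ s h

/-- the sum of the principal minors of order `j` -/
noncomputable def e (A : Matrix (Fin n) (Fin n) ℂ) (j : ℕ) : ℂ :=
  (det (1 + (Polynomial.X : Polynomial ℂ) • A.map Polynomial.C)).coeff j

theorem e_eq (A : Matrix (Fin n) (Fin n) ℂ) (j : ℕ) :
    e A j = ∑ s ∈ (Finset.univ : Finset (Fin n)).powersetCard j, pm A s :=
  Matrix.coeff_det_one_add_X_smul_eq_sum_minors A j

theorem c_eq (A : Matrix (Fin n) (Fin n) ℂ) (j : ℕ) : c A j = e A j / (n.choose j : ℂ) := by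
  rw [c, e_eq]
  congr 1
  refine Finset.sum_congr rfl fun s _ => ?_
  rw [minor_eq_pm, idx_orderEmb]

theorem pm_pos {A : Matrix (Fin n) (Fin n) ℂ} (hA : IsP A) (s : Finset (Fin n)) :
    (pm A s).im = 0 ∧ 0 < (pm A s).re := by
  rcases Nat.eq_zero_or_pos s.card with h | h
  · have : s = ∅ := Finset.card_eq_zero.1 h
    subst this
    simp [pm]
  · have := hA _ (s.orderEmbOfFin rfl) h
    rwa [minor_eq_pm, idx_orderEmb] at this

theorem e_pos {A : Matrix (Fin n) (Fin n) ℂ} (hA : IsP A) {j : ℕ} (hj : j ≤ n) :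
    (e A j).im = 0 ∧ 0 < (e A j).re := by
  rw [e_eq]
  constructor
  · rw [Complex.im_sum]
    exact Finset.sum_eq_zero fun s _ => (pm_pos hA s).1
  · rw [Complex.re_sum]
    refine Finset.sum_pos (fun s _ => (pm_pos hA s).2) ?_
    rw [← Finset.card_pos, Finset.card_powersetCard, Finset.card_univ, Fintype.card_fin]
    exact Nat.choose_pos hj

theorem e_im {A : Matrix (Fin n) (Fin n) ℂ} (hA : IsP A) (j : ℕ) : (e A j).im = 0 := by
  rw [e_eq, Complex.im_sum]
  exact Finset.sum_eq_zero fun s _ => (pm_pos hA s).1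

theorem c_im {A : Matrix (Fin n) (Fin n) ℂ} (hA : IsP A) (j : ℕ) : (c A j).im = 0 := by
  rw [c_eq, ← Complex.ofReal_natCast, Complex.div_ofReal_im, e_im hA, zero_div]

theorem c_re (A : Matrix (Fin n) (Fin n) ℂ) (j : ℕ) :
    (c A j).re = (e A j).re / (n.choose j : ℝ) := by
  rw [c_eq, ← Complex.ofReal_natCast, Complex.div_ofReal_re]

end General

/-! ## Direct sums with a positive number -/

section

open Matrix Polynomial

variable {n k m : ℕ}

/-- the direct sum of `(t)` and `A` -/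
noncomputable def ext (t : ℝ) (A : Matrix (Fin n) (Fin n) ℂ) :
    Matrix (Fin (n + 1)) (Fin (n + 1)) ℂ :=
  fun i j => Fin.cases (Fin.cases (t : ℂ) (fun _ => 0) j)
    (fun i' => Fin.cases 0 (fun j' => A i' j') j) i

@[simp] theorem ext_zero_zero (t : ℝ) (A : Matrix (Fin n) (Fin n) ℂ) : ext t A 0 0 = t := rfl
@[simp] theorem ext_zero_succ (t : ℝ) (A : Matrix (Fin n) (Fin n) ℂ) (j : Fin n) :
    ext t A 0 j.succ = 0 := rfl
@[simp] theorem ext_succ_zero (t : ℝ) (A : Matrix (Fin n) (Fin n) ℂ) (i : Fin n) :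
    ext t A i.succ 0 = 0 := rfl
@[simp] theorem ext_succ_succ (t : ℝ) (A : Matrix (Fin n) (Fin n) ℂ) (i j : Fin n) :
    ext t A i.succ j.succ = A i j := rfl

theorem det_block {R : Type*} [CommRing R] (M : Matrix (Fin (k + 1)) (Fin (k + 1)) R)
    (h : ∀ i : Fin k, M i.succ 0 = 0) : M.det = M 0 0 * (M.submatrix Fin.succ Fin.succ).det := by
  rw [Matrix.det_succ_column_zero, Fin.sum_univ_succ]
  simp [h]

/-! ### index sequences -/

theorem emb_succ (α : Fin k ↪o Fin (n + 1)) (h : ∀ i, α i ≠ 0) :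
    ∃ α' : Fin k ↪o Fin n, ∀ i, α i = (α' i).succ := by
  refine ⟨OrderEmbedding.ofStrictMono (fun i => (α i).pred (h i)) ?_, fun i => ?_⟩
  · intro i j hij
    exact Fin.pred_lt_pred_iff.2 (α.strictMono hij)
  · simp

theorem emb_zero (α : Fin (k + 1) ↪o Fin (n + 1)) :
    ∃ α' : Fin k ↪o Fin n, ∀ i : Fin k, α i.succ = (α' i).succ := by
  have h : ∀ i : Fin k, α i.succ ≠ 0 := by
    intro i h0
    have h1 : α 0 < α i.succ := α.strictMono (Fin.succ_pos i)
    rw [h0] at h1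
    exact absurd h1 (Fin.not_lt_zero _)
  refine ⟨OrderEmbedding.ofStrictMono (fun i => (α i.succ).pred (h i)) ?_, fun i => ?_⟩
  · intro i j hij
    exact Fin.pred_lt_pred_iff.2 (α.strictMono (Fin.succ_lt_succ_iff.2 hij))
  · simp

theorem emb_cases (α : Fin k ↪o Fin (n + 1)) :
    (∀ i, α i ≠ 0) ∨ ∃ (k' : ℕ) (h : k = k' + 1), α (Fin.cast h.symm 0) = 0 := by
  rcases k with _ | k
  · left; intro i; exact i.elim0
  · by_cases h : α 0 = 0
    · right; exact ⟨k, rfl, h⟩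
    · left
      intro i hi
      have h1 : α 0 ≤ α i := α.monotone (Fin.zero_le i)
      rw [hi] at h1
      exact h (le_antisymm h1 (Fin.zero_le _))

theorem idx_succ (α : Fin k ↪o Fin (n + 1)) (α' : Fin k ↪o Fin n) (h : ∀ i, α i = (α' i).succ) :
    idx α = (idx α').image Fin.succ := by
  unfold idx
  rw [Finset.image_image]
  exact Finset.image_congr fun i _ => h i

theorem idx_zero (α : Fin (k + 1) ↪o Fin (n + 1)) (h0 : α 0 = 0) (α' : Fin k ↪o Fin n)
    (h : ∀ i : Fin k, α i.succ = (α' i).succ) :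
    idx α = insert 0 ((idx α').image Fin.succ) := by
  unfold idx
  ext x
  simp only [Finset.mem_image, Finset.mem_univ, true_and, Finset.mem_insert, Fin.exists_fin_succ,
    h0, h, exists_exists_eq_and]
  tauto

theorem zero_notMem (s : Finset (Fin n)) : (0 : Fin (n + 1)) ∉ s.image Fin.succ := by
  simp

theorem card_inter (s t : Finset (Fin n)) :
    (s.image Fin.succ ∩ t.image Fin.succ).card = (s ∩ t).card := by
  rw [← Finset.image_inter _ _ (Fin.succ_injective n),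
    Finset.card_image_of_injective _ (Fin.succ_injective n)]

theorem card_inter_insert (s t : Finset (Fin n)) :
    (insert 0 (s.image Fin.succ) ∩ insert 0 (t.image Fin.succ)).card = (s ∩ t).card + 1 := by
  rw [← Finset.insert_inter_distrib, Finset.card_insert_of_notMem, card_inter]
  simp

theorem subset_image (s t : Finset (Fin n)) :
    s.image Fin.succ ⊆ t.image Fin.succ ↔ s ⊆ t :=
  Finset.image_subset_image_iff (Fin.succ_injective n)

theorem subset_of_image_insert (s t : Finset (Fin n))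
    (h : s.image Fin.succ ⊆ insert 0 (t.image Fin.succ)) : s ⊆ t := by
  rw [← subset_image]
  intro x hx
  have := h hx
  rcases Finset.mem_insert.1 this with h0 | h0
  · subst h0
    exact absurd hx (zero_notMem s)
  · exact h0

/-! ### minors -/

section
variable (t : ℝ) (A : Matrix (Fin n) (Fin n) ℂ)

theorem sub_ext_succ (α β : Fin k ↪o Fin (n + 1)) (α' β' : Fin k ↪o Fin n)
    (h : ∀ i, α i = (α' i).succ) (h' : ∀ i, β i = (β' i).succ) :
    sub (ext t A) α β = sub A α' β' := by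
  ext i j
  simp [sub, h, h']

theorem minor_ext_succ (α β : Fin k ↪o Fin (n + 1)) (α' β' : Fin k ↪o Fin n)
    (h : ∀ i, α i = (α' i).succ) (h' : ∀ i, β i = (β' i).succ) :
    minor (ext t A) α β = minor A α' β' := by
  rw [minor, minor, sub_ext_succ t A α β α' β' h h']

theorem minor_ext_zero (α β : Fin (k + 1) ↪o Fin (n + 1)) (α' β' : Fin k ↪o Fin n)
    (h0 : α 0 = 0) (h0' : β 0 = 0)
    (h : ∀ i : Fin k, α i.succ = (α' i).succ) (h' : ∀ i : Fin k, β i.succ = (β' i).succ) :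
    minor (ext t A) α β = t * minor A α' β' := by
  rw [minor, det_block]
  · congr 1
    · simp [sub, h0, h0']
    · rw [minor]
      congr 1
      ext i j
      simp [sub, h, h']
  · intro i
    simp [sub, h, h0']

theorem minor_ext_mixed (α β : Fin (k + 1) ↪o Fin (n + 1)) (β' : Fin (k + 1) ↪o Fin n)
    (h0 : α 0 = 0) (h' : ∀ i, β i = (β' i).succ) : minor (ext t A) α β = 0 := by
  rw [minor]
  refine Matrix.det_eq_zero_of_row_eq_zero 0 fun j => ?_
  simp [sub, h0, h']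

theorem isP_ext (ht : 0 < t) (hA : IsP A) : IsP (ext t A) := by
  intro k α hk
  rcases emb_cases α with h | ⟨k', rfl, h0⟩
  · obtain ⟨α', h'⟩ := emb_succ α h
    rw [minor_ext_succ t A α α α' α' h' h']
    exact hA k α' hk
  · obtain ⟨α', h'⟩ := emb_zero α
    rw [minor_ext_zero t A α α α' α' h0 h0 h' h', minor_eq_pm]
    have := pm_pos hA (idx α')
    constructor
    · simp [this.1]
    · simpa using mul_pos ht this.2

theorem isWSS_ext (ht : 0 < t) (hA : IsWSS A) : IsWSS (ext t A) := by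
  intro k α β hk
  rcases emb_cases α with h | ⟨k', rfl, h0⟩
  · obtain ⟨α', h'⟩ := emb_succ α h
    rcases emb_cases β with g | ⟨k', rfl, g0⟩
    · obtain ⟨β', g'⟩ := emb_succ β g
      rw [minor_ext_succ t A α β α' β' h' g', minor_ext_succ t A β α β' α' g' h']
      apply hA k α' β'
      rw [idx_succ α α' h', idx_succ β β' g', card_inter] at hk
      exact hk
    · rw [minor_ext_mixed t A β α α' g0 h', mul_zero]
      simp
  · rcases emb_cases β with g | ⟨k'', hk'', g0⟩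
    · obtain ⟨β', g'⟩ := emb_succ β g
      rw [minor_ext_mixed t A α β β' h0 g', zero_mul]
      simp
    · obtain rfl : k' = k'' := by omega
      obtain ⟨α', h'⟩ := emb_zero α
      obtain ⟨β', g'⟩ := emb_zero β
      have g0' : β 0 = 0 := g0
      rw [minor_ext_zero t A α β α' β' h0 g0' h' g', minor_ext_zero t A β α β' α' g0' h0 g' h']
      rw [idx_zero α h0 α' h', idx_zero β g0' β' g', card_inter_insert] at hk
      have := hA k' α' β' (by omega)
      have e : (t : ℂ) * minor A α' β' * (t * minor A β' α') =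
          ((t ^ 2 : ℝ) : ℂ) * (minor A α' β' * minor A β' α') := by push_cast; ring
      rw [e, Complex.im_ofReal_mul, Complex.re_ofReal_mul, this.1, mul_zero]
      exact ⟨rfl, mul_nonneg (by positivity) this.2⟩

/-! ### spectra -/

theorem spec_block (M : Matrix (Fin (k + 1)) (Fin (k + 1)) ℂ) (h : ∀ i : Fin k, M i.succ 0 = 0)
    (z : ℂ) : z ∈ spectrum ℂ M ↔ z = M 0 0 ∨ z ∈ spectrum ℂ (M.submatrix Fin.succ Fin.succ) := by
  rw [mem_spec, mem_spec, det_block]
  · have e : (algebraMap ℂ (Matrix (Fin (k + 1)) (Fin (k + 1)) ℂ) z - M).submatrix Fin.succ Fin.succ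
        = algebraMap ℂ (Matrix (Fin k) (Fin k) ℂ) z - M.submatrix Fin.succ Fin.succ := by
      ext i j
      simp [Matrix.algebraMap_matrix_apply]
    rw [e, mul_eq_zero]
    simp [Matrix.algebraMap_matrix_apply, sub_eq_zero]
  · intro i
    simp [Matrix.algebraMap_matrix_apply, h]

theorem spec_ext (z : ℂ) : z ∈ spectrum ℂ (ext t A) ↔ z = t ∨ z ∈ spectrum ℂ A := by
  rw [spec_block]
  · rfl
  · intro i; rfl

theorem spec_ext_zero (α : Fin (k + 1) ↪o Fin (n + 1)) (α' : Fin k ↪o Fin n) (h0 : α 0 = 0)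
    (h : ∀ i : Fin k, α i.succ = (α' i).succ) (z : ℂ) :
    z ∈ spectrum ℂ (sub (ext t A) α α) ↔ z = t ∨ z ∈ spectrum ℂ (sub A α' α') := by
  rw [spec_block]
  · have e : (sub (ext t A) α α).submatrix Fin.succ Fin.succ = sub A α' α' := by
      ext i j; simp [sub, h]
    rw [e]
    simp [sub, h0]
  · intro i
    simp [sub, h, h0]

theorem l_eq_min (M : Matrix (Fin (k + 1)) (Fin (k + 1)) ℂ) (N : Matrix (Fin k) (Fin k) ℂ)
    (h : ∀ z, z ∈ spectrum ℂ M ↔ z = t ∨ z ∈ spectrum ℂ N) : l M = min (t : EReal) (l N) := by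
  have e : {x : EReal | ∃ r : ℝ, x = (r : EReal) ∧ (r : ℂ) ∈ spectrum ℂ M} =
      insert (t : EReal) {x : EReal | ∃ r : ℝ, x = (r : EReal) ∧ (r : ℂ) ∈ spectrum ℂ N} := by
    ext x
    simp only [Set.mem_ofPred_eq, Set.mem_insert_iff]
    constructor
    · rintro ⟨r, hx, hr⟩
      rcases (h _).1 hr with h1 | h1
      · left
        rw [hx]
        exact_mod_cast h1
      · right; exact ⟨r, hx, h1⟩
    · rintro (hx | ⟨r, hx, hr⟩)
      · exact ⟨t, hx, (h _).2 (Or.inl rfl)⟩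
      · exact ⟨r, hx, (h _).2 (Or.inr hr)⟩
  rw [l, e, sInf_insert]
  rfl

theorem l_empty (M : Matrix (Fin 0) (Fin 0) ℂ) : l M = ⊤ := by
  have e : {x : EReal | ∃ r : ℝ, x = (r : EReal) ∧ (r : ℂ) ∈ spectrum ℂ M} = ∅ := by
    ext x
    simp only [Set.mem_ofPred_eq, Set.mem_empty_iff_false, iff_false]
    rintro ⟨r, _, hr⟩
    rw [mem_spec] at hr
    simp at hr
  rw [l, e, sInf_empty]

theorem omega_le {A : Matrix (Fin n) (Fin n) ℂ} (hA : IsOmega A) (β : Fin k ↪o Fin n)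
    (α : Fin m ↪o Fin n) (h : idx β ⊆ idx α) : l (sub A α α) ≤ l (sub A β β) := by
  rcases k with _ | k
  · rw [l_empty (sub A β β)]; exact le_top
  · exact (hA _ m β α (Nat.succ_pos k) h).1

theorem isOmega_ext (hA : IsOmega A) : IsOmega (ext t A) := by
  intro k m β α hk hsub
  rcases emb_cases β with g | ⟨k', rfl, g0⟩
  · obtain ⟨β', g'⟩ := emb_succ β g
    have hfin : l (sub (ext t A) β β) < ⊤ := by
      rw [sub_ext_succ t A β β β' β' g' g']
      exact (hA k k β' β' hk subset_rfl).2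
    refine ⟨?_, hfin⟩
    rw [sub_ext_succ t A β β β' β' g' g']
    rw [idx_succ β β' g'] at hsub
    rcases emb_cases α with h | ⟨m', rfl, h0⟩
    · obtain ⟨α', h'⟩ := emb_succ α h
      rw [idx_succ α α' h', subset_image] at hsub
      rw [sub_ext_succ t A α α α' α' h' h']
      exact omega_le hA β' α' hsub
    · obtain ⟨α', h'⟩ := emb_zero α
      have h0' : α 0 = 0 := h0
      rw [idx_zero α h0' α' h'] at hsub
      rw [l_eq_min t _ _ (spec_ext_zero t A α α' h0' h')]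
      exact (min_le_right _ _).trans (omega_le hA β' α' (subset_of_image_insert _ _ hsub))
  · obtain ⟨β', g'⟩ := emb_zero β
    have g0' : β 0 = 0 := g0
    rw [l_eq_min t _ _ (spec_ext_zero t A β β' g0' g')]
    refine ⟨?_, lt_of_le_of_lt (min_le_left _ _) (EReal.coe_lt_top t)⟩
    rw [idx_zero β g0' β' g'] at hsub
    rcases emb_cases α with h | ⟨m', rfl, h0⟩
    · obtain ⟨α', h'⟩ := emb_succ α h
      rw [idx_succ α α' h'] at hsub
      exact absurd (hsub (Finset.mem_insert_self _ _)) (zero_notMem _)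
    · obtain ⟨α', h'⟩ := emb_zero α
      have h0' : α 0 = 0 := h0
      rw [idx_zero α h0' α' h'] at hsub
      rw [l_eq_min t _ _ (spec_ext_zero t A α α' h0' h')]
      refine min_le_min le_rfl (omega_le hA β' α' ?_)
      exact subset_of_image_insert _ _ ((Finset.subset_insert _ _).trans hsub)

theorem isTau_ext (ht : 0 < t) (hA : IsTau A) : IsTau (ext t A) := by
  refine ⟨isOmega_ext t A hA.1, ?_⟩
  rw [l_eq_min t _ _ (spec_ext t A)]
  refine le_min ?_ hA.2
  exact_mod_cast ht.le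

theorem isStable_ext (ht : 0 < t) (hA : IsStable A) : IsStable (ext t A) := by
  intro z hz
  rcases (spec_ext t A z).1 hz with h | h
  · rw [h]; simpa using ht
  · exact hA z h

theorem e_ext_zero : e (ext t A) 0 = e A 0 := by
  rw [e_eq, e_eq]; simp [pm]

theorem e_ext_succ (j : ℕ) : e (ext t A) (j + 1) = e A (j + 1) + t * e A j := by
  have h : det (1 + (X : Polynomial ℂ) • (ext t A).map C) =
      det (1 + (X : Polynomial ℂ) • A.map C) +
        C (t : ℂ) * (X * det (1 + (X : Polynomial ℂ) • A.map C)) := by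
    rw [det_block]
    · have e1 : (1 + (X : Polynomial ℂ) • (ext t A).map C).submatrix Fin.succ Fin.succ =
          1 + (X : Polynomial ℂ) • A.map C := by
        ext i j
        simp [Matrix.one_apply]
      rw [e1]
      simp
      ring
    · intro i
      simp [Matrix.one_apply]
  rw [e, h, Polynomial.coeff_add, Polynomial.coeff_C_mul, Polynomial.coeff_X_mul]
  rfl

end

end

/-! ## The matrices of order 4 -/

section

open Matrix Polynomial

/-- the matrix `[[v²,2v-1,…,2v-1],[v²,2v,2v-1,…],…,[v²,0,…,0,2v]]` -/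
noncomputable def R (k : ℕ) (v : ℝ) : Matrix (Fin (k + 1)) (Fin (k + 1)) ℝ :=
  fun a b => if b = 0 then v ^ 2 else if a = b then 2 * v else if a < b then 2 * v - 1 else 0

/-- upper triangular -/
noncomputable def T (k : ℕ) (v : ℝ) : Matrix (Fin k) (Fin k) ℝ :=
  fun a b => if a = b then 2 * v else if a < b then 2 * v - 1 else 0

/-- the matrix -/
noncomputable def B (v : ℝ) : Matrix (Fin 4) (Fin 4) ℂ := (R 3 v).map (fun x : ℝ => (x : ℂ))

theorem minor_cast (v : ℝ) {k : ℕ} (α β : Fin k ↪o Fin 4) :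
    minor (B v) α β = (((R 3 v).submatrix α β).det : ℂ) := by
  have h : sub (B v) α β = Complex.ofRealHom.mapMatrix ((R 3 v).submatrix α β) := by
    ext i j; simp [sub, B]
  rw [minor, h, ← RingHom.map_det]; simp

theorem k_le {k : ℕ} (α : Fin k ↪o Fin 4) : k ≤ 4 := by
  simpa using Fintype.card_le_of_injective α α.injective

theorem lt2 (α : Fin 2 ↪o Fin 4) : α 0 < α 1 := α.strictMono (by decide)
theorem lt3a (α : Fin 3 ↪o Fin 4) : α 0 < α 1 := α.strictMono (by decide)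
theorem lt3b (α : Fin 3 ↪o Fin 4) : α 1 < α 2 := α.strictMono (by decide)

theorem emb4 (α : Fin 4 ↪o Fin 4) : ∀ i, α i = i := by
  have h01 : α 0 < α 1 := α.strictMono (by decide)
  have h12 : α 1 < α 2 := α.strictMono (by decide)
  have h23 : α 2 < α 3 := α.strictMono (by decide)
  have hb := (α 3).isLt
  rw [Fin.lt_def] at h01 h12 h23
  intro i
  fin_cases i <;> (apply Fin.ext; simp; omega)

theorem idx_eq1 (α : Fin 1 ↪o Fin 4) : idx α = {α 0} := by
  ext x; simp [idx]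

theorem idx_eq2 (α : Fin 2 ↪o Fin 4) : idx α = {α 0, α 1} := by
  ext x; simp [idx, Fin.exists_fin_two, eq_comm]

theorem idx_eq3 (α : Fin 3 ↪o Fin 4) : idx α = {α 0, α 1, α 2} := by
  ext x; simp [idx, Fin.exists_fin_succ, eq_comm]

theorem emb1 (α : Fin 1 ↪o Fin 4) : α 0 = 0 ∨ α 0 = 1 ∨ α 0 = 2 ∨ α 0 = 3 := by
  generalize α 0 = a; revert a; decide

theorem emb2 (α : Fin 2 ↪o Fin 4) : (α 0 = 0 ∧ α 1 = 1) ∨ (α 0 = 0 ∧ α 1 = 2) ∨
    (α 0 = 0 ∧ α 1 = 3) ∨ (α 0 = 1 ∧ α 1 = 2) ∨ (α 0 = 1 ∧ α 1 = 3) ∨ (α 0 = 2 ∧ α 1 = 3) := by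
  have h := lt2 α
  generalize α 0 = a at *; generalize α 1 = b at *; revert a b; decide

theorem emb3 (α : Fin 3 ↪o Fin 4) : (α 0 = 0 ∧ α 1 = 1 ∧ α 2 = 2) ∨ (α 0 = 0 ∧ α 1 = 1 ∧ α 2 = 3) ∨
    (α 0 = 0 ∧ α 1 = 2 ∧ α 2 = 3) ∨ (α 0 = 1 ∧ α 1 = 2 ∧ α 2 = 3) := by
  have h := lt3a α
  have h' := lt3b α
  generalize α 0 = a at *; generalize α 1 = b at *; generalize α 2 = c at *
  revert a b c; decide

/-- entries -/
theorem R3 (v : ℝ) : R 3 v = !![v ^ 2, 2 * v - 1, 2 * v - 1, 2 * v - 1;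
    v ^ 2, 2 * v, 2 * v - 1, 2 * v - 1; v ^ 2, 0, 2 * v, 2 * v - 1; v ^ 2, 0, 0, 2 * v] := by
  ext i j
  fin_cases i <;> fin_cases j <;> simp [R]

theorem det4 (v : ℝ) (α β : Fin 4 ↪o Fin 4) : ((R 3 v).submatrix α β).det = v ^ 2 := by
  have : (R 3 v).submatrix α β = R 3 v := by ext i j; simp [emb4]
  rw [this, R3]
  simp [Matrix.det_succ_row_zero, Fin.sum_univ_succ, Fin.succAbove]
  ring

theorem isP_B {v : ℝ} (hv : 1 ≤ v) : IsP (B v) := by
  intro k α hk
  have hk4 := k_le α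
  rw [minor_cast]
  have hv0 : 0 < v := by linarith
  have key : 0 < ((R 3 v).submatrix α α).det := by
    interval_cases k
    · rw [R3]
      rcases emb1 α with h | h | h | h <;> simp [h] <;> positivity
    · rw [R3, Matrix.det_fin_two]
      rcases emb2 α with h | h | h | h | h | h <;> simp [h.1, h.2] <;> nlinarith [sq_nonneg v]
    · rw [R3, Matrix.det_fin_three]
      rcases emb3 α with h | h | h | h
      · have e : ∀ x : ℝ, x = v ^ 2 → 0 < x := fun x hx => by rw [hx]; positivity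
        apply e; simp [h.1, h.2.1, h.2.2]; ring
      · have e : ∀ x : ℝ, x = v ^ 2 → 0 < x := fun x hx => by rw [hx]; positivity
        apply e; simp [h.1, h.2.1, h.2.2]; ring
      · have e : ∀ x : ℝ, x = v ^ 2 → 0 < x := fun x hx => by rw [hx]; positivity
        apply e; simp [h.1, h.2.1, h.2.2]; ring
      · have e : ∀ x : ℝ, x = 8 * v ^ 3 → 0 < x := fun x hx => by rw [hx]; positivity
        apply e; simp [h.1, h.2.1, h.2.2]; ring
    · rw [det4]; positivity
  exact ⟨Complex.ofReal_im _, by rw [Complex.ofReal_re]; exact key⟩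

theorem isWSS_B {v : ℝ} (hv : 1 ≤ v) : IsWSS (B v) := by
  intro k α β hk
  have hk4 := k_le α
  rw [minor_cast, minor_cast]
  have hv0 : 0 < v := by linarith
  obtain ⟨c, hc, hvc⟩ : ∃ c : ℝ, 0 ≤ c ∧ 2 * v - 1 = c := ⟨2 * v - 1, by linarith, rfl⟩
  have hv2 : 2 * v = c + 1 := by linarith
  have f1 : 0 ≤ c * v ^ 2 := by positivity
  have f2 : 0 ≤ c ^ 2 * v ^ 2 := by positivity
  have key : 0 ≤ ((R 3 v).submatrix α β).det * ((R 3 v).submatrix β α).det := by
    interval_cases k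
    · simp at hk
    · rw [R3, hvc, hv2]
      rcases emb1 α with h | h | h | h <;> rcases emb1 β with g | g | g | g <;>
        simp [h, g] <;> positivity
    · rw [idx_eq2, idx_eq2] at hk
      rw [R3, hvc, hv2, Matrix.det_fin_two, Matrix.det_fin_two]
      rcases emb2 α with h | h | h | h | h | h <;> rcases emb2 β with g | g | g | g | g | g <;>
        rw [h.1, h.2, g.1, g.2] at hk <;>
        first
          | (exact absurd hk (by decide))
          | (simp [h.1, h.2, g.1, g.2] ; done)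
          | (simp [h.1, h.2, g.1, g.2] ; ring_nf; positivity)
          | (simp [h.1, h.2, g.1, g.2] ; ring_nf; linarith)
    · rw [idx_eq3, idx_eq3] at hk
      rw [R3, hvc, hv2, Matrix.det_fin_three, Matrix.det_fin_three]
      rcases emb3 α with h | h | h | h <;> rcases emb3 β with g | g | g | g <;>
        rw [h.1, h.2.1, h.2.2, g.1, g.2.1, g.2.2] at hk <;>
        first
          | (exact absurd hk (by decide))
          | (simp [h.1, h.2.1, h.2.2, g.1, g.2.1, g.2.2] ; done)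
          | (simp [h.1, h.2.1, h.2.2, g.1, g.2.1, g.2.2] ; ring_nf; positivity)
    · rw [det4, det4]; positivity
  rw [← Complex.ofReal_mul]
  exact ⟨Complex.ofReal_im _, by rw [Complex.ofReal_re]; exact key⟩

end

/-! ## The matrices of order 4: spectra -/

section

open Matrix Polynomial

/-- the polynomial whose roots are the eigenvalues of `R k v` -/
noncomputable def f (k : ℕ) (v r : ℝ) : ℝ := r * (r - 2 * v) ^ k - v ^ 2 * (r - 1) ^ k

theorem specR (v : ℝ) {k : ℕ} (hk : k ≤ 3) (z : ℂ) :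
    z ∈ spectrum ℂ ((R k v).map (fun x : ℝ => (x : ℂ))) ↔
      z * (z - 2 * v) ^ k - v ^ 2 * (z - 1) ^ k = 0 := by
  rw [mem_spec]
  have h : (algebraMap ℂ (Matrix (Fin (k + 1)) (Fin (k + 1)) ℂ) z -
      (R k v).map (fun x : ℝ => (x : ℂ))).det = z * (z - 2 * v) ^ k - v ^ 2 * (z - 1) ^ k := by
    interval_cases k
    · simp [R, Matrix.algebraMap_matrix_apply]
    · simp [R, Matrix.det_fin_two, Matrix.algebraMap_matrix_apply]
      ring
    · simp [R, Matrix.det_fin_three, Matrix.algebraMap_matrix_apply]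
      ring
    · rw [R3]
      simp [Matrix.det_succ_row_zero, Fin.sum_univ_succ, Fin.succAbove, Matrix.algebraMap_matrix_apply]
      ring
  rw [h]

theorem specT (v : ℝ) {k : ℕ} (hk : 0 < k) (z : ℂ) :
    z ∈ spectrum ℂ ((T k v).map (fun x : ℝ => (x : ℂ))) ↔ z = 2 * v := by
  rw [mem_spec]
  have h : (algebraMap ℂ (Matrix (Fin k) (Fin k) ℂ) z -
      (T k v).map (fun x : ℝ => (x : ℂ))).det = (z - 2 * v) ^ k := by
    rw [Matrix.det_of_isUpperTriangular]
    · simp [T, Matrix.algebraMap_matrix_apply]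
    · intro i j hij
      have hij' : j < i := hij
      simp [T, Matrix.algebraMap_matrix_apply, hij'.ne', not_lt.2 hij'.le]
  rw [h, pow_eq_zero_iff hk.ne', sub_eq_zero]

theorem sub_R (v : ℝ) {k : ℕ} (α : Fin (k + 1) ↪o Fin 4) (h0 : α 0 = 0) :
    sub (B v) α α = (R k v).map (fun x : ℝ => (x : ℂ)) := by
  ext i j
  have h1 : α j = 0 ↔ j = 0 := by
    rw [← h0]; exact α.injective.eq_iff
  have h2 : α i = α j ↔ i = j := α.injective.eq_iff
  simp [sub, B, R, h1, h2]

theorem sub_T (v : ℝ) {k : ℕ} (α : Fin k ↪o Fin 4) (h0 : ∀ i, α i ≠ 0) :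
    sub (B v) α α = (T k v).map (fun x : ℝ => (x : ℂ)) := by
  ext i j
  have h2 : α i = α j ↔ i = j := α.injective.eq_iff
  simp [sub, B, R, T, h0, h2]

theorem specR' (v : ℝ) {k : ℕ} (hk : k ≤ 3) (r : ℝ) :
    (r : ℂ) ∈ spectrum ℂ ((R k v).map (fun x : ℝ => (x : ℂ))) ↔ f k v r = 0 := by
  rw [specR v hk, f]
  constructor
  · intro h; exact_mod_cast h
  · intro h; exact_mod_cast congrArg (fun x : ℝ => (x : ℂ)) h

/-- existence of a real root by the intermediate value theorem -/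
theorem ivt (f : ℝ → ℝ) (hf : Continuous f) (a b : ℝ) (hab : a ≤ b)
    (h : f a * f b ≤ 0) : ∃ x, a ≤ x ∧ x ≤ b ∧ f x = 0 := by
  rcases le_or_gt (f a) 0 with h1 | h1
  · rcases le_or_gt 0 (f b) with h2 | h2
    · obtain ⟨x, hx, hx2⟩ := intermediate_value_Icc hab hf.continuousOn ⟨h1, h2⟩
      exact ⟨x, hx.1, hx.2, hx2⟩
    · have : f a = 0 := by nlinarith
      exact ⟨a, le_refl _, hab, this⟩
  · rcases le_or_gt (f b) 0 with h2 | h2
    · obtain ⟨x, hx, hx2⟩ := intermediate_value_Icc' hab hf.continuousOn ⟨h2, h1.le⟩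
      exact ⟨x, hx.1, hx.2, hx2⟩
    · have : f a * f b > 0 := mul_pos h1 h2
      linarith

theorem root_one {v : ℝ} (hv : 1 ≤ v) {k : ℕ} (hk : 0 < k) : ∃ r, 0 ≤ r ∧ r ≤ 1 ∧ f k v r = 0 := by
  refine ivt (f k v) (by unfold f; fun_prop) 0 1 zero_le_one ?_
  have h1 : f k v 0 = -(v ^ 2 * (-1) ^ k) := by simp [f]
  have h2 : f k v 1 = (-1) ^ k * (2 * v - 1) ^ k := by
    have : (1 : ℝ) - 2 * v = (-1) * (2 * v - 1) := by ring
    simp only [f, this, mul_pow, sub_self, zero_pow hk.ne']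
    ring
  rw [h1, h2]
  have h3 : ((-1 : ℝ) ^ k) * (-1) ^ k = 1 := by rw [← mul_pow]; norm_num
  have h4 : -(v ^ 2 * (-1) ^ k) * ((-1) ^ k * (2 * v - 1) ^ k) =
      -(v ^ 2 * (2 * v - 1) ^ k) * ((-1) ^ k * (-1) ^ k) := by ring
  rw [h4, h3, mul_one]
  have : 0 ≤ v ^ 2 * (2 * v - 1) ^ k := mul_nonneg (sq_nonneg v) (pow_nonneg (by linarith) k)
  linarith

theorem root_step {v : ℝ} (hv : 1 ≤ v) {k : ℕ} {r : ℝ} (hr : f k v r = 0) (h0 : 0 ≤ r)
    (h1 : r ≤ 1) : ∃ r', 0 ≤ r' ∧ r' ≤ r ∧ f (k + 1) v r' = 0 := by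
  refine ivt (f (k + 1) v) (by unfold f; fun_prop) 0 r h0 ?_
  have e1 : f (k + 1) v 0 = v ^ 2 * (-1) ^ k := by simp [f, pow_succ]
  have e2 : f (k + 1) v r = (-1) ^ k * (-(v ^ 2 * (1 - r) ^ k * (2 * v - 1))) := by
    have hr' : r * (r - 2 * v) ^ k = v ^ 2 * (r - 1) ^ k := by unfold f at hr; linarith
    have e3 : (r - 1) ^ k = (-1) ^ k * (1 - r) ^ k := by rw [← mul_pow]; ring
    have e4 : f (k + 1) v r = (r * (r - 2 * v) ^ k) * (r - 2 * v) - v ^ 2 * (r - 1) ^ k * (r - 1) := by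
      unfold f; ring
    rw [e4, hr', e3]
    ring
  rw [e1, e2]
  have h3 : ((-1 : ℝ) ^ k) * (-1) ^ k = 1 := by rw [← mul_pow]; norm_num
  have h4 : v ^ 2 * (-1) ^ k * ((-1) ^ k * (-(v ^ 2 * (1 - r) ^ k * (2 * v - 1)))) =
      -(v ^ 2 * (v ^ 2 * (1 - r) ^ k * (2 * v - 1))) * ((-1) ^ k * (-1) ^ k) := by ring
  rw [h4, h3, mul_one]
  have h5 : 0 ≤ (1 - r) ^ k := pow_nonneg (by linarith) k
  have h6 : 0 ≤ 2 * v - 1 := by linarith
  have : 0 ≤ v ^ 2 * (v ^ 2 * (1 - r) ^ k * (2 * v - 1)) := by positivity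
  linarith

theorem root_add {v : ℝ} (hv : 1 ≤ v) {k : ℕ} {r : ℝ} (hr : f k v r = 0) (h0 : 0 ≤ r) (d : ℕ) :
    ∃ r', 0 ≤ r' ∧ r' ≤ r ∧ f (k + d) v r' = 0 := by
  induction d with
  | zero => exact ⟨r, h0, le_rfl, hr⟩
  | succ d ih =>
    obtain ⟨r', h1, h2, h3⟩ := ih
    rcases le_or_gt r' 1 with h4 | h4
    · obtain ⟨r'', g1, g2, g3⟩ := root_step hv h3 h1 h4
      exact ⟨r'', g1, g2.trans h2, g3⟩
    · obtain ⟨r'', g1, g2, g3⟩ := root_one hv (Nat.succ_pos (k + d))
      exact ⟨r'', g1, by linarith, g3⟩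

theorem root_nonneg {v : ℝ} (hv : 1 ≤ v) {k : ℕ} {r : ℝ} (hr : f k v r = 0) : 0 ≤ r := by
  by_contra h
  push Not at h
  have e1 : (r - 2 * v) ^ k = (-1) ^ k * (2 * v - r) ^ k := by rw [← mul_pow]; ring
  have e2 : (r - 1) ^ k = (-1) ^ k * (1 - r) ^ k := by rw [← mul_pow]; ring
  have e3 : (-1) ^ k * (r * (2 * v - r) ^ k - v ^ 2 * (1 - r) ^ k) = 0 := by
    rw [← hr]; unfold f; rw [e1, e2]; ring
  have h3 : ((-1 : ℝ) ^ k) ≠ 0 := pow_ne_zero _ (by norm_num)
  have e4 : r * (2 * v - r) ^ k - v ^ 2 * (1 - r) ^ k = 0 := (mul_eq_zero.1 e3).resolve_left h3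
  have h5 : 0 < (2 * v - r) ^ k := pow_pos (by linarith) k
  have h6 : 0 < (1 - r) ^ k := pow_pos (by linarith) k
  nlinarith [mul_neg_of_neg_of_pos h h5, mul_pos (show 0 < v ^ 2 by positivity) h6]

theorem idx_mem_zero {k : ℕ} (α : Fin (k + 1) ↪o Fin 4) (h : α 0 = 0) : (0 : Fin 4) ∈ idx α :=
  Finset.mem_image.2 ⟨0, Finset.mem_univ _, h⟩

theorem card_idx {k n : ℕ} (α : Fin k ↪o Fin n) : (idx α).card = k := by
  rw [idx, Finset.card_image_of_injective _ α.injective]; simp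

theorem isOmega_B {v : ℝ} (hv : 1 ≤ v) : IsOmega (B v) := by
  intro k m β α hk hsub
  have hkm : k ≤ m := by
    have := Finset.card_le_card hsub
    rwa [card_idx, card_idx] at this
  have hm4 := k_le α
  rcases emb_cases β with g | ⟨k', rfl, g0⟩
  · -- the first index is not in `β`
    have hβ : ∀ r : ℝ, (r : ℂ) ∈ spectrum ℂ (sub (B v) β β) ↔ r = 2 * v := by
      intro r
      rw [sub_T v β g, specT v hk]
      constructor
      · intro h; exact_mod_cast h
      · intro h; rw [h]; push_cast; ring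
    have hfin : l (sub (B v) β β) < ⊤ :=
      (l_le ((hβ (2 * v)).2 rfl) le_rfl).trans_lt (EReal.coe_lt_top _)
    refine ⟨?_, hfin⟩
    have h2 : ((2 * v : ℝ) : EReal) ≤ l (sub (B v) β β) := le_l fun r hr => ((hβ r).1 hr).ge
    refine le_trans ?_ h2
    rcases emb_cases α with h | ⟨m', rfl, h0⟩
    · refine l_le (r := 2 * v) ?_ le_rfl
      rw [sub_T v α h, specT v (by omega)]
      push_cast; ring
    · have h0' : α 0 = 0 := h0
      have hm' : 0 < m' := by
        rcases Nat.eq_zero_or_pos m' with hm0 | hm0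
        · exfalso
          subst hm0
          obtain rfl : k = 1 := by omega
          have h5 : idx β = idx α :=
            Finset.eq_of_subset_of_card_le hsub (by rw [card_idx, card_idx])
          have h6 := idx_mem_zero α h0'
          rw [← h5] at h6
          obtain ⟨i, _, hi⟩ := Finset.mem_image.1 h6
          exact g i hi
        · exact hm0
      obtain ⟨r, hr0, hr1, hr⟩ := root_one hv hm'
      refine l_le (r := r) ?_ (by linarith)
      rw [sub_R v α h0', specR' v (by omega)]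
      exact hr
  · -- the first index is in `β`
    have g0' : β 0 = 0 := g0
    rcases emb_cases α with h | ⟨m', rfl, h0⟩
    · exfalso
      have h6 := hsub (idx_mem_zero β g0')
      obtain ⟨i, _, hi⟩ := Finset.mem_image.1 h6
      exact h i hi
    have h0' : α 0 = 0 := h0
    have hβ : ∀ r : ℝ, (r : ℂ) ∈ spectrum ℂ (sub (B v) β β) ↔ f k' v r = 0 := by
      intro r
      rw [sub_R v β g0', specR' v (by omega)]
    have hα : ∀ r : ℝ, (r : ℂ) ∈ spectrum ℂ (sub (B v) α α) ↔ f m' v r = 0 := by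
      intro r
      rw [sub_R v α h0', specR' v (by omega)]
    constructor
    · refine le_sInf ?_
      rintro x ⟨r, rfl, hr⟩
      have hr' := (hβ r).1 hr
      obtain ⟨r', h1, h2, h3⟩ := root_add hv hr' (root_nonneg hv hr') (m' - k')
      have e : k' + (m' - k') = m' := by omega
      rw [e] at h3
      exact l_le ((hα r').2 h3) h2
    · have : ∃ r, f k' v r = 0 := by
        rcases Nat.eq_zero_or_pos k' with h | h
        · exact ⟨v ^ 2, by subst h; simp [f]⟩
        · obtain ⟨r, _, _, hr⟩ := root_one hv h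
          exact ⟨r, hr⟩
      obtain ⟨r, hr⟩ := this
      exact (l_le ((hβ r).2 hr) le_rfl).trans_lt (EReal.coe_lt_top r)

theorem isTau_B {v : ℝ} (hv : 1 ≤ v) : IsTau (B v) := by
  refine ⟨isOmega_B hv, ?_⟩
  have : ((0 : ℝ) : EReal) ≤ l (B v) :=
    le_l fun r hr => root_nonneg hv ((specR' v (le_refl 3) r).1 hr)
  simpa using this

/-- the Routh-Hurwitz computation for quartic polynomials -/
theorem hurwitz {v : ℝ} (hv : 1 ≤ v) {z : ℂ} (hz : z * (z - 2 * v) ^ 3 - v ^ 2 * (z - 1) ^ 3 = 0) :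
    0 < z.re := by
  by_contra hc
  push Not at hc
  obtain ⟨x, y⟩ := z
  simp only at hc
  have hre := congrArg Complex.re hz
  have him := congrArg Complex.im hz
  simp [pow_succ, Complex.mul_re, Complex.mul_im] at hre him
  obtain ⟨u, hu, rfl⟩ : ∃ u : ℝ, 0 ≤ u ∧ v = 1 + u := ⟨v - 1, by linarith, by ring⟩
  obtain ⟨w, hw, rfl⟩ : ∃ w : ℝ, 0 ≤ w ∧ x = -w := ⟨-x, by linarith, by ring⟩
  have P0 : 0 < w ^ 4 + (6 * (1 + u) + (1 + u) ^ 2) * w ^ 3 + 15 * (1 + u) ^ 2 * w ^ 2 +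
      (8 * (1 + u) ^ 3 + 3 * (1 + u) ^ 2) * w + (1 + u) ^ 2 := by positivity
  by_cases hy : y = 0
  · subst hy
    have : w ^ 4 + (6 * (1 + u) + (1 + u) ^ 2) * w ^ 3 + 15 * (1 + u) ^ 2 * w ^ 2 +
      (8 * (1 + u) ^ 3 + 3 * (1 + u) ^ 2) * w + (1 + u) ^ 2 = 0 := by
      ring_nf at hre ⊢; linarith
    linarith
  · have h1 : y ^ 2 * (4 * w + (6 * (1 + u) + (1 + u) ^ 2)) =
        4 * w ^ 3 + 3 * (6 * (1 + u) + (1 + u) ^ 2) * w ^ 2 + 2 * (15 * (1 + u) ^ 2) * w +
          (8 * (1 + u) ^ 3 + 3 * (1 + u) ^ 2) := by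
      have : y * (y ^ 2 * (4 * w + (6 * (1 + u) + (1 + u) ^ 2)) -
        (4 * w ^ 3 + 3 * (6 * (1 + u) + (1 + u) ^ 2) * w ^ 2 + 2 * (15 * (1 + u) ^ 2) * w +
          (8 * (1 + u) ^ 3 + 3 * (1 + u) ^ 2))) = 0 := by
        ring_nf at him ⊢; linarith
      rcases mul_eq_zero.mp this with h | h
      · exact absurd h hy
      · linarith
    have h2 : (y ^ 2) ^ 2 - y ^ 2 * (6 * w ^ 2 + 3 * (6 * (1 + u) + (1 + u) ^ 2) * w +
        15 * (1 + u) ^ 2) + (w ^ 4 + (6 * (1 + u) + (1 + u) ^ 2) * w ^ 3 +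
        15 * (1 + u) ^ 2 * w ^ 2 + (8 * (1 + u) ^ 3 + 3 * (1 + u) ^ 2) * w + (1 + u) ^ 2) = 0 := by
      ring_nf at hre ⊢; linarith
    set p := 4 * w + (6 * (1 + u) + (1 + u) ^ 2) with hp
    set q := 4 * w ^ 3 + 3 * (6 * (1 + u) + (1 + u) ^ 2) * w ^ 2 + 2 * (15 * (1 + u) ^ 2) * w +
          (8 * (1 + u) ^ 3 + 3 * (1 + u) ^ 2) with hq
    have h3 : q ^ 2 - q * (6 * w ^ 2 + 3 * (6 * (1 + u) + (1 + u) ^ 2) * w +
        15 * (1 + u) ^ 2) * p + (w ^ 4 + (6 * (1 + u) + (1 + u) ^ 2) * w ^ 3 +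
        15 * (1 + u) ^ 2 * w ^ 2 + (8 * (1 + u) ^ 3 + 3 * (1 + u) ^ 2) * w + (1 + u) ^ 2) * p ^ 2
          = 0 := by
      rw [← h1]
      have := congrArg (fun t => t * p ^ 2) h2
      simp only [zero_mul] at this
      linarith
    have h4 : 0 < -(q ^ 2 - q * (6 * w ^ 2 + 3 * (6 * (1 + u) + (1 + u) ^ 2) * w +
        15 * (1 + u) ^ 2) * p + (w ^ 4 + (6 * (1 + u) + (1 + u) ^ 2) * w ^ 3 +
        15 * (1 + u) ^ 2 * w ^ 2 + (8 * (1 + u) ^ 3 + 3 * (1 + u) ^ 2) * w + (1 + u) ^ 2) * p ^ 2)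
          := by
      rw [hp, hq]
      ring_nf
      positivity
    linarith

theorem isStable_B {v : ℝ} (hv : 1 ≤ v) : IsStable (B v) := by
  intro z hz
  exact hurwitz hv ((specR v (le_refl 3) z).1 hz)

theorem poly_B (v : ℝ) : det (1 + (X : Polynomial ℂ) • (B v).map C) =
    1 + C ((6 * v + v ^ 2 : ℝ) : ℂ) * X + C ((15 * v ^ 2 : ℝ) : ℂ) * X ^ 2 +
      C ((8 * v ^ 3 + 3 * v ^ 2 : ℝ) : ℂ) * X ^ 3 + C ((v ^ 2 : ℝ) : ℂ) * X ^ 4 := by
  have h2 : (C (2 : ℂ) : Polynomial ℂ) = 2 := map_ofNat C 2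
  have h3 : (C (3 : ℂ) : Polynomial ℂ) = 3 := map_ofNat C 3
  have h6 : (C (6 : ℂ) : Polynomial ℂ) = 6 := map_ofNat C 6
  have h8 : (C (8 : ℂ) : Polynomial ℂ) = 8 := map_ofNat C 8
  have h15 : (C (15 : ℂ) : Polynomial ℂ) = 15 := map_ofNat C 15
  rw [B, R3]
  simp [Matrix.det_succ_row_zero, Fin.sum_univ_succ, Fin.succAbove, Matrix.one_apply]
  simp only [h2, h3, h6, h8, h15]
  ring

theorem coeff_aux (a b c d : ℂ) : (1 + C a * X + C b * X ^ 2 + C c * X ^ 3 + C d * X ^ 4 :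
    Polynomial ℂ).coeff 1 = a ∧ (1 + C a * X + C b * X ^ 2 + C c * X ^ 3 + C d * X ^ 4 :
    Polynomial ℂ).coeff 2 = b ∧ (1 + C a * X + C b * X ^ 2 + C c * X ^ 3 + C d * X ^ 4 :
    Polynomial ℂ).coeff 3 = c := by
  refine ⟨?_, ?_, ?_⟩ <;>
  simp [Polynomial.coeff_one, Polynomial.coeff_X, Polynomial.coeff_X_pow]

theorem e1_B (v : ℝ) : e (B v) 1 = ((6 * v + v ^ 2 : ℝ) : ℂ) := by
  rw [e, poly_B]
  exact (coeff_aux _ _ _ _).1

theorem e2_B (v : ℝ) : e (B v) 2 = ((15 * v ^ 2 : ℝ) : ℂ) := by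
  rw [e, poly_B]
  exact (coeff_aux _ _ _ _).2.1

theorem e3_B (v : ℝ) : e (B v) 3 = ((8 * v ^ 3 + 3 * v ^ 2 : ℝ) : ℂ) := by
  rw [e, poly_B]
  exact (coeff_aux _ _ _ _).2.2

end

/-! ## The first and the last Newton inequality -/

section

open Matrix Polynomial

variable {n k m : ℕ}

theorem e_one (A : Matrix (Fin n) (Fin n) ℂ) : e A 1 = A.trace := by
  rw [e]; exact Matrix.coeff_det_one_add_X_smul_one A

theorem e_zero (A : Matrix (Fin n) (Fin n) ℂ) : e A 0 = 1 := by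
  rw [e_eq]; simp [pm]

theorem sum_sq {ι : Type*} [DecidableEq ι] (a : ι → ℝ) (s : Finset ι) :
    (∑ i ∈ s, a i) ^ 2 = ∑ i ∈ s, a i ^ 2 + 2 * ∑ t ∈ s.powersetCard 2, ∏ i ∈ t, a i := by
  induction s using Finset.induction_on with
  | empty =>
    rw [Finset.powersetCard_eq_empty.2 (by simp)]
    simp
  | insert x s hx ih =>
    have h1 : ∑ t ∈ (insert x s).powersetCard 2, ∏ i ∈ t, a i =
        ∑ t ∈ s.powersetCard 2, ∏ i ∈ t, a i + a x * ∑ i ∈ s, a i := by
      rw [Finset.powersetCard_succ_insert hx 1, Finset.sum_union]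
      · congr 1
        rw [Finset.sum_image, Finset.powersetCard_one, Finset.sum_map, Finset.mul_sum]
        · refine Finset.sum_congr rfl fun y hy => ?_
          have hxy : x ≠ y := fun h => hx (h ▸ hy)
          simp [Finset.prod_pair hxy]
        · intro t ht t' ht' h
          have h2 : x ∉ t := fun h' => hx ((Finset.mem_powersetCard.1 ht).1 h')
          have h3 : x ∉ t' := fun h' => hx ((Finset.mem_powersetCard.1 ht').1 h')
          have h4 := congrArg (fun u => Finset.erase u x) h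
          simpa [Finset.erase_insert h2, Finset.erase_insert h3] using h4
      · rw [Finset.disjoint_left]
        intro t ht ht'
        obtain ⟨u, _, rfl⟩ := Finset.mem_image.1 ht'
        exact hx ((Finset.mem_powersetCard.1 ht).1 (Finset.mem_insert_self x u))
    rw [h1, Finset.sum_insert hx, Finset.sum_insert hx, add_sq, ih]
    ring

/-- the inequality for the sums of the principal minors of orders 1 and 2 -/
theorem key (M : Matrix (Fin n) (Fin n) ℂ) (hd : ∀ i, (M i i).im = 0)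
    (hw : ∀ i j, i ≠ j → 0 ≤ (M i j * M j i).re) :
    2 * n * (e M 2).re ≤ (n - 1) * (e M 1).re ^ 2 := by
  have h1 : (e M 1).re = ∑ i, (M i i).re := by
    rw [e_one, Matrix.trace, Complex.re_sum]; rfl
  have h2 : (e M 2).re ≤ ∑ t ∈ (Finset.univ : Finset (Fin n)).powersetCard 2,
      ∏ i ∈ t, (M i i).re := by
    rw [e_eq, Complex.re_sum]
    refine Finset.sum_le_sum fun s hs => ?_
    have hc := (Finset.mem_powersetCard.1 hs).2
    set α := s.orderEmbOfFin hc with hα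
    have h3 : idx α = s := idx_orderEmb s hc
    have h4 : α 0 ≠ α 1 := α.injective.ne (by decide)
    have h5 := minor_eq_pm M α
    have h6 : ∏ i ∈ s, (M i i).re = (M (α 0) (α 0)).re * (M (α 1) (α 1)).re := by
      rw [← h3, idx, Finset.prod_image (fun x _ y _ h => α.injective h), Fin.prod_univ_two]
    rw [h3] at h5
    rw [← h5, h6, minor, Matrix.det_fin_two]
    have h7 := hw _ _ h4
    simp only [sub, Matrix.submatrix_apply, Complex.sub_re]
    rw [Complex.mul_re (M (α 0) (α 0)), hd, zero_mul, sub_zero]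
    linarith
  have h3 := sum_sq (fun i : Fin n => (M i i).re) Finset.univ
  have h4 := sq_sum_le_card_mul_sum_sq (s := (Finset.univ : Finset (Fin n)))
    (f := fun i : Fin n => (M i i).re)
  simp only [Finset.card_univ, Fintype.card_fin] at h4
  rw [← h1] at h3 h4
  have hn : (0 : ℝ) ≤ n := Nat.cast_nonneg n
  have h5 : 2 * n * (e M 2).re ≤ n * ((e M 1).re ^ 2 - ∑ i, (M i i).re ^ 2) := by
    have : 2 * (e M 2).re ≤ (e M 1).re ^ 2 - ∑ i, (M i i).re ^ 2 := by linarith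
    nlinarith
  linarith

/-- sums of principal minors of the inverse matrix -/
theorem e_inv (A : Matrix (Fin n) (Fin n) ℂ) (hA : IsUnit A) {k : ℕ} (hk : k ≤ n) :
    e A (n - k) = A.det * e A⁻¹ k := by
  have hdet : A.det ≠ 0 := ((Matrix.isUnit_iff_isUnit_det A).1 hA).ne_zero
  have hrev : ∀ j, A.charpolyRev.coeff j = (-1) ^ j * e A j := by
    intro j
    have hcharpolyRev : A.charpolyRev = det (1 + (X : ℂ[X]) • (-A).map C) := by
      simp only [charpolyRev, sub_eq_add_neg]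
      congr 2
      rw [Matrix.map_neg C (map_neg C) A, smul_neg]
    have h1 : A.charpolyRev.coeff j = e (-A) j := by rw [hcharpolyRev, e]
    rw [h1, e_eq, e_eq, Finset.mul_sum]
    refine Finset.sum_congr rfl fun s hs => ?_
    simp only [pm, Matrix.submatrix_neg, Pi.neg_apply, Matrix.det_neg, Fintype.card_coe]
    rw [(Finset.mem_powersetCard.mp hs).2]
  have h1 : A⁻¹.charpoly.coeff (n - k) = (-1) ^ k * e A⁻¹ k := by
    have := Matrix.charpoly_coeff_eq_sum_minors A⁻¹ k (by simpa using hk)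
    rw [Fintype.card_fin] at this
    rw [this, e_eq]
    rfl
  have h2 : A⁻¹.charpoly.coeff (n - k) = (-1) ^ n * (A.det)⁻¹ * ((-1) ^ (n - k) * e A (n - k)) := by
    rw [Matrix.charpoly_inv A hA, Fintype.card_fin, Ring.inverse_eq_inv']
    have h3 : ((-1 : ℂ[X]) ^ n * C (A.det)⁻¹) = C ((-1) ^ n * (A.det)⁻¹) := by simp
    rw [h3, Polynomial.coeff_C_mul, hrev]
  rw [h1] at h2
  have h4 : (-1 : ℂ) ^ n = (-1) ^ (n - k) * (-1) ^ k := by rw [← pow_add]; congr 1; omega
  have h5 : ((-1 : ℂ) ^ (n - k)) * (-1) ^ (n - k) = 1 := by rw [← mul_pow]; norm_num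
  have h6 : ((-1 : ℂ) ^ k) ≠ 0 := pow_ne_zero _ (by norm_num)
  have h7 : (-1 : ℂ) ^ n * (A.det)⁻¹ * ((-1) ^ (n - k) * e A (n - k)) =
      (-1) ^ k * ((A.det)⁻¹ * e A (n - k)) := by
    calc (-1 : ℂ) ^ n * (A.det)⁻¹ * ((-1) ^ (n - k) * e A (n - k))
        = ((-1 : ℂ) ^ (n - k) * (-1) ^ (n - k)) * ((-1) ^ k * ((A.det)⁻¹ * e A (n - k))) := by
          rw [h4]; ring
      _ = _ := by rw [h5, one_mul]
  rw [h7] at h2
  have h8 := mul_left_cancel₀ h6 h2
  rw [h8, mul_inv_cancel_left₀ hdet]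

theorem idx_succAbove (i : Fin (n + 1)) : idx (Fin.succAboveOrderEmb i) = {i}ᶜ := by
  ext x
  simp only [idx, Finset.mem_image, Finset.mem_univ, true_and, Finset.mem_compl,
    Finset.mem_singleton]
  constructor
  · rintro ⟨y, rfl⟩
    exact Fin.succAbove_ne i y
  · intro h
    obtain ⟨y, hy⟩ := Fin.exists_succAbove_eq h
    exact ⟨y, hy⟩

/-- the first Newton inequality for GKK matrices -/
theorem newton_first (A : Matrix (Fin n) (Fin n) ℂ) (hA : IsGKK A) (hn : 2 ≤ n) :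
    (c A 0).re * (c A 2).re ≤ (c A 1).re ^ 2 := by
  obtain ⟨hP, hW⟩ := hA
  have hone : ∀ i : Fin n, ∃ α : Fin 1 ↪o Fin n, α 0 = i := by
    intro i
    refine ⟨OrderEmbedding.ofStrictMono (fun _ => i) ?_, rfl⟩
    intro a b hab
    exact absurd hab (by simp [Subsingleton.elim a b])
  have hmin : ∀ α β : Fin 1 ↪o Fin n, minor A α β = A (α 0) (β 0) := by
    intro α β
    simp [minor, sub]
  have hidx : ∀ α : Fin 1 ↪o Fin n, idx α = {α 0} := by
    intro α; ext x; simp [idx]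
  have h := key A ?_ ?_
  · rw [c_re, c_re, c_re, e_zero]
    have hn0 : (0 : ℝ) < n := by exact_mod_cast (by omega : 0 < n)
    have hn1 : (0 : ℝ) < (n : ℝ) - 1 := by
      have : (2 : ℝ) ≤ n := by exact_mod_cast hn
      linarith
    have h2 : ((n.choose 2 : ℕ) : ℝ) = n * (n - 1) / 2 := Nat.cast_choose_two ℝ n
    rw [h2, Nat.choose_zero_right, Nat.choose_one_right]
    simp only [Complex.one_re, Nat.cast_one, div_one, one_mul, div_pow]
    rw [div_le_div_iff₀ (by positivity) (by positivity)]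
    nlinarith [mul_le_mul_of_nonneg_left h hn0.le]
  · intro i
    obtain ⟨α, rfl⟩ := hone i
    rw [← hmin]
    exact (hP 1 α one_pos).1
  · intro i j hij
    obtain ⟨α, rfl⟩ := hone i
    obtain ⟨β, rfl⟩ := hone j
    rw [← hmin, ← hmin]
    refine (hW 1 α β ?_).2
    rw [hidx, hidx, Finset.singleton_inter_of_notMem (by simpa using hij)]
    rfl

/-- the last Newton inequality for GKK matrices -/
theorem newton_last (A : Matrix (Fin (n + 1)) (Fin (n + 1)) ℂ) (hA : IsGKK A) (hn : 1 ≤ n) :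
    (c A (n - 1)).re * (c A (n + 1)).re ≤ (c A n).re ^ 2 := by
  obtain ⟨hP, hW⟩ := hA
  have hdet : A.det.im = 0 ∧ 0 < A.det.re := by
    have := hP (n + 1) (RelEmbedding.refl _) (Nat.succ_pos n)
    simpa [minor, sub] using this
  have hd0 : A.det ≠ 0 := by
    intro h; rw [h] at hdet; simp at hdet
  have hdr : A.det = ((A.det.re : ℝ) : ℂ) := by
    apply Complex.ext <;> simp [hdet.1]
  have hU : IsUnit A := (Matrix.isUnit_iff_isUnit_det A).2 (isUnit_iff_ne_zero.2 hd0)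
  set d : ℝ := A.det.re with hd
  have hinv : ∀ i j, A⁻¹ i j = ((d⁻¹ : ℝ) : ℂ) * ((-1) ^ (j + i : ℕ) *
      minor A (Fin.succAboveOrderEmb j) (Fin.succAboveOrderEmb i)) := by
    intro i j
    rw [Matrix.inv_def, Ring.inverse_eq_inv', Matrix.smul_apply,
      Matrix.adjugate_fin_succ_eq_det_submatrix, hdr]
    simp [minor, sub]
    exact Or.inl rfl
  have hsq : ∀ i : ℕ, ((-1 : ℂ) ^ (i + i)) = 1 := fun i => by
    rw [← two_mul, pow_mul]; norm_num
  have h := key A⁻¹ ?_ ?_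
  · have e1 := e_inv A hU (k := 1) (by omega)
    have e2 := e_inv A hU (k := 2) (by omega)
    have e0 := e_inv A hU (k := 0) (by omega)
    rw [Nat.add_sub_cancel] at e1
    rw [show n + 1 - 2 = n - 1 by omega] at e2
    rw [Nat.sub_zero, e_zero, mul_one] at e0
    rw [c_re, c_re, c_re, e0, e1, e2]
    rw [hdr, Complex.re_ofReal_mul, Complex.re_ofReal_mul, Complex.ofReal_re]
    have c1 : (n + 1).choose n = n + 1 := by
      rw [Nat.choose_succ_self_right]
    have c2 : (n + 1).choose (n - 1) = (n + 1).choose 2 := by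
      rw [← Nat.choose_symm (by omega : 2 ≤ n + 1)]
      congr 1
    have h2 : (((n + 1).choose 2 : ℕ) : ℝ) = ((n : ℝ) + 1) * n / 2 := by
      rw [Nat.cast_choose_two]; push_cast; ring
    rw [c1, c2, h2, Nat.choose_self]
    push_cast at h ⊢
    have hn0 : (0 : ℝ) < n := by exact_mod_cast hn
    set E1 := (e A⁻¹ 1).re
    set E2 := (e A⁻¹ 2).re
    have h' : 2 * ((n : ℝ) + 1) * E2 ≤ n * E1 ^ 2 := by
      have : (n : ℝ) + 1 - 1 = n := by ring
      rw [this] at h; exact h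
    have hd2 : 0 < d ^ 2 := by have := hdet.2; positivity
    rw [div_one, div_pow, div_mul_eq_mul_div, div_le_div_iff₀ (by positivity) (by positivity)]
    have h3 : 0 ≤ (d ^ 2 * (n + 1) / 2) * (n * E1 ^ 2 - 2 * ((n : ℝ) + 1) * E2) :=
      mul_nonneg (by positivity) (by linarith)
    nlinarith
  · intro i
    rw [hinv, hsq, one_mul, Complex.im_ofReal_mul]
    rcases Nat.eq_zero_or_pos n with h0 | h0
    · omega
    · rw [(hP n _ h0).1, mul_zero]
  · intro i j hij
    rw [hinv, hinv]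
    have e : ((d⁻¹ : ℝ) : ℂ) * ((-1) ^ (j + i : ℕ) *
        minor A (Fin.succAboveOrderEmb j) (Fin.succAboveOrderEmb i)) *
        (((d⁻¹ : ℝ) : ℂ) * ((-1) ^ (i + j : ℕ) *
        minor A (Fin.succAboveOrderEmb i) (Fin.succAboveOrderEmb j))) =
        ((d⁻¹ ^ 2 : ℝ) : ℂ) * (minor A (Fin.succAboveOrderEmb j) (Fin.succAboveOrderEmb i) *
          minor A (Fin.succAboveOrderEmb i) (Fin.succAboveOrderEmb j)) := by
      have h1 : (-1 : ℂ) ^ (j + i : ℕ) * (-1) ^ (i + j : ℕ) = 1 := by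
        rw [← pow_add]
        have : (j : ℕ) + i + (i + j) = (i + j) + (i + j) := by ring
        rw [this, hsq]
      calc _ = ((-1 : ℂ) ^ (j + i : ℕ) * (-1) ^ (i + j : ℕ)) * (((d⁻¹ : ℝ) : ℂ) ^ 2 *
          (minor A (Fin.succAboveOrderEmb j) (Fin.succAboveOrderEmb i) *
          minor A (Fin.succAboveOrderEmb i) (Fin.succAboveOrderEmb j))) := by ring
        _ = _ := by rw [h1, one_mul]; push_cast; ring
    rw [e, Complex.re_ofReal_mul]
    refine mul_nonneg (by positivity) (hW n _ _ ?_).2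
    rw [idx_succAbove, idx_succAbove, ← Finset.compl_union, Finset.card_compl, Fintype.card_fin]
    have : ({j} ∪ {i} : Finset (Fin (n + 1))).card = 2 := by
      rw [Finset.card_union_of_disjoint (by simpa using hij.symm)]; simp
    rw [this]
    omega

end

/-! ## The other Newton inequalities -/

section

open Matrix Polynomial

variable {n k m : ℕ}

/-- real nonnegative entries -/
def Nonneg (A : Matrix (Fin n) (Fin n) ℂ) : Prop := ∀ i j, (A i j).im = 0 ∧ 0 ≤ (A i j).re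

theorem nonneg_ext (t : ℝ) (ht : 0 < t) (A : Matrix (Fin n) (Fin n) ℂ) (hA : Nonneg A) :
    Nonneg (ext t A) := by
  intro i j
  refine Fin.cases ?_ (fun i => ?_) i <;> refine Fin.cases ?_ (fun j => ?_) j
  · simp [ht.le]
  · simp
  · simp
  · simpa using hA i j

theorem nonneg_B {v : ℝ} (hv : 1 ≤ v) : Nonneg (B v) := by
  intro i j
  refine ⟨by simp [B], ?_⟩
  simp only [B, Matrix.map_apply, Complex.ofReal_re, R]
  split_ifs
  · positivity
  · linarith
  · linarith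
  · exact le_rfl

/-- the property proved by induction on the order -/
def Good (n j : ℕ) : Prop := ∀ δ : ℝ, 0 < δ → ∃ A : Matrix (Fin n) (Fin n) ℂ, Nonneg A ∧ IsGKK A ∧
  IsTau A ∧ IsStable A ∧ (e A j).re ^ 2 < δ * ((e A (j - 1)).re * (e A (j + 1)).re)

theorem small (a0 a1 b0 b1 c0 c1 δ : ℝ) (h : a0 ^ 2 < δ * (b0 * c0)) :
    ∃ s : ℝ, 0 < s ∧ (a0 + s * a1) ^ 2 < δ * ((b0 + s * b1) * (c0 + s * c1)) := by
  have hc : Filter.Tendsto (fun s : ℝ => δ * ((b0 + s * b1) * (c0 + s * c1)) - (a0 + s * a1) ^ 2)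
      (nhdsWithin 0 (Set.Ioi 0)) (nhds (δ * ((b0 + 0 * b1) * (c0 + 0 * c1)) - (a0 + 0 * a1) ^ 2)) := by
    apply Filter.Tendsto.mono_left _ nhdsWithin_le_nhds
    exact Continuous.tendsto (f := fun s : ℝ => δ * ((b0 + s * b1) * (c0 + s * c1)) -
      (a0 + s * a1) ^ 2) (by fun_prop) 0
  have h0 : 0 < δ * ((b0 + 0 * b1) * (c0 + 0 * c1)) - (a0 + 0 * a1) ^ 2 := by
    simp only [zero_mul, add_zero]; linarith
  have h1 := hc.eventually (lt_mem_nhds h0)
  have h2 : ∀ᶠ s : ℝ in nhdsWithin 0 (Set.Ioi 0), 0 < s := eventually_mem_nhdsWithin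
  obtain ⟨s, hs1, hs2⟩ := (h1.and h2).exists
  exact ⟨s, hs2, by linarith⟩

theorem good_ext {j : ℕ} (hj : 2 ≤ j) (h : Good n j) : Good (n + 1) j ∧ Good (n + 1) (j + 1) := by
  constructor
  · intro δ hδ
    obtain ⟨A, hN, hG, hT, hS, hA⟩ := h δ hδ
    obtain ⟨s, hs, hs'⟩ := small (e A j).re (e A (j - 1)).re (e A (j - 1)).re (e A (j - 2)).re
      (e A (j + 1)).re (e A j).re δ hA
    refine ⟨ext s A, nonneg_ext s hs A hN, ⟨isP_ext s A hs hG.1, isWSS_ext s A hs hG.2⟩,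
      isTau_ext s A hs hT, isStable_ext s A hs hS, ?_⟩
    obtain ⟨i, rfl⟩ : ∃ i, j = i + 2 := ⟨j - 2, by omega⟩
    have e1 : (e (ext s A) (i + 2)).re = (e A (i + 2)).re + s * (e A (i + 1)).re := by
      rw [e_ext_succ, Complex.add_re, Complex.re_ofReal_mul]
    have e2 : (e (ext s A) (i + 1)).re = (e A (i + 1)).re + s * (e A i).re := by
      rw [e_ext_succ, Complex.add_re, Complex.re_ofReal_mul]
    have e3 : (e (ext s A) (i + 3)).re = (e A (i + 3)).re + s * (e A (i + 2)).re := by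
      rw [e_ext_succ, Complex.add_re, Complex.re_ofReal_mul]
    simp only [Nat.add_sub_cancel, show i + 2 - 1 = i + 1 by omega, show i + 2 + 1 = i + 3 by omega]
      at hs' ⊢
    rw [e1, e2, e3]
    exact hs'
  · intro δ hδ
    obtain ⟨A, hN, hG, hT, hS, hA⟩ := h δ hδ
    obtain ⟨s, hs, hs'⟩ := small (e A j).re (e A (j + 1)).re (e A (j - 1)).re (e A j).re
      (e A (j + 1)).re (e A (j + 2)).re δ hA
    have ht : 0 < s⁻¹ := inv_pos.2 hs
    refine ⟨ext s⁻¹ A, nonneg_ext _ ht A hN, ⟨isP_ext _ A ht hG.1, isWSS_ext _ A ht hG.2⟩,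
      isTau_ext _ A ht hT, isStable_ext _ A ht hS, ?_⟩
    obtain ⟨i, rfl⟩ : ∃ i, j = i + 1 := ⟨j - 1, by omega⟩
    have e1 : (e (ext s⁻¹ A) (i + 2)).re = s⁻¹ * ((e A (i + 1)).re + s * (e A (i + 2)).re) := by
      rw [e_ext_succ, Complex.add_re, Complex.re_ofReal_mul]; field_simp; ring
    have e2 : (e (ext s⁻¹ A) (i + 1)).re = s⁻¹ * ((e A i).re + s * (e A (i + 1)).re) := by
      rw [e_ext_succ, Complex.add_re, Complex.re_ofReal_mul]; field_simp; ring
    have e3 : (e (ext s⁻¹ A) (i + 3)).re = s⁻¹ * ((e A (i + 2)).re + s * (e A (i + 3)).re) := by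
      rw [e_ext_succ, Complex.add_re, Complex.re_ofReal_mul]; field_simp; ring
    simp only [Nat.add_sub_cancel, show i + 1 + 1 = i + 2 by omega, show i + 1 + 2 = i + 3 by omega,
      show i + 2 - 1 = i + 1 by omega] at hs' ⊢
    rw [e1, e2, e3, mul_pow]
    have h2 : 0 < (s⁻¹) ^ 2 := by positivity
    have h3 := mul_lt_mul_of_pos_left hs' h2
    calc _ < _ := h3
      _ = _ := by ring

theorem good_four : Good 4 2 := by
  intro δ hδ
  obtain ⟨v, hv⟩ := exists_nat_gt (max 1 (255 / δ))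
  have hv1 : (1 : ℝ) ≤ v := ((le_max_left _ _).trans_lt hv).le
  have hv2 : 255 / δ < (v : ℝ) := (le_max_right _ _).trans_lt hv
  have hv3 : 255 < v * δ := by rwa [div_lt_iff₀ hδ] at hv2
  refine ⟨B v, nonneg_B hv1, ⟨isP_B hv1, isWSS_B hv1⟩, isTau_B hv1, isStable_B hv1, ?_⟩
  simp only [Nat.reduceSub, Nat.reduceAdd]
  rw [e1_B, e2_B, e3_B]
  simp only [Complex.ofReal_re]
  have hv0 : (0 : ℝ) < v := by linarith
  have h1 : (15 * (v : ℝ) ^ 2) ^ 2 = 225 * v ^ 4 := by ring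
  have h2 : (v : ℝ) ^ 4 * (v * δ) ≤ δ * ((6 * v + v ^ 2) * (8 * v ^ 3 + 3 * v ^ 2)) := by
    have : δ * ((6 * (v : ℝ) + v ^ 2) * (8 * v ^ 3 + 3 * v ^ 2)) - v ^ 4 * (v * δ) =
      δ * (v ^ 3 * (7 * v ^ 2 + 51 * v + 18)) := by ring
    have h3 : 0 ≤ δ * ((v : ℝ) ^ 3 * (7 * v ^ 2 + 51 * v + 18)) := by positivity
    linarith
  rw [h1]
  refine lt_of_lt_of_le ?_ h2
  have h4 : 0 < (v : ℝ) ^ 4 := by positivity
  nlinarith

theorem good {n j : ℕ} (hj : 2 ≤ j) (hn : j + 2 ≤ n) : Good n j := by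
  obtain ⟨i, rfl⟩ : ∃ i, j = i + 2 := ⟨j - 2, by omega⟩
  obtain ⟨m, rfl⟩ : ∃ m, n = m + (i + 4) := ⟨n - (i + 4), by omega⟩
  clear hj hn
  have h1 : ∀ i, Good (i + 4) (i + 2) := by
    intro i
    induction i with
    | zero => exact good_four
    | succ i ih =>
      have := (good_ext (by omega) ih).2
      rwa [show i + 4 + 1 = i + 1 + 4 by omega, show i + 2 + 1 = i + 1 + 2 by omega] at this
  induction m with
  | zero => rw [zero_add]; exact h1 i
  | succ m ih =>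
    have := (good_ext (by omega) ih).1
    rwa [show m + (i + 4) + 1 = m + 1 + (i + 4) by omega] at this

theorem c_pos {A : Matrix (Fin n) (Fin n) ℂ} (hA : IsP A) {j : ℕ} (hj : j ≤ n) :
    (c A j).im = 0 ∧ 0 < (c A j).re := by
  refine ⟨c_im hA j, ?_⟩
  rw [c_re]
  have : (0 : ℝ) < n.choose j := by exact_mod_cast Nat.choose_pos hj
  exact div_pos (e_pos hA hj).2 this

theorem fails {n j : ℕ} (hj : 2 ≤ j) (hn : j + 2 ≤ n) {ε : ℝ} (hε : 0 < ε) :
    ∃ A : Matrix (Fin n) (Fin n) ℂ, Nonneg A ∧ IsGKK A ∧ IsTau A ∧ IsStable A ∧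
      (∀ i ≤ n, (c A i).im = 0 ∧ 0 < (c A i).re) ∧
      (c A j).re ^ 2 < ε * ((c A (j - 1)).re * (c A (j + 1)).re) := by
  have p0 : (0 : ℝ) < n.choose j := by exact_mod_cast Nat.choose_pos (by omega)
  have p1 : (0 : ℝ) < n.choose (j - 1) := by exact_mod_cast Nat.choose_pos (by omega)
  have p2 : (0 : ℝ) < n.choose (j + 1) := by exact_mod_cast Nat.choose_pos (by omega)
  obtain ⟨A, hN, hG, hT, hS, hA⟩ := good hj hn
    (ε * ((n.choose j : ℝ) ^ 2 / ((n.choose (j - 1) : ℝ) * (n.choose (j + 1) : ℝ)))) (by positivity)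
  refine ⟨A, hN, hG, hT, hS, fun i hi => c_pos hG.1 hi, ?_⟩
  rw [c_re, c_re, c_re]
  set a := (e A j).re
  set b := (e A (j - 1)).re
  set d := (e A (j + 1)).re
  rw [div_pow, div_lt_iff₀ (by positivity)]
  calc a ^ 2 < _ := hA
    _ = _ := by field_simp

end

/-- The Newton inequality with index `j`: the numbers `c_{j-1}`, `c_j`, `c_{j+1}` are real and
`c_j ^ 2 ≥ c_{j-1} c_{j+1}`. -/
def NewtonInequality {n : ℕ} (A : Matrix (Fin n) (Fin n) ℂ) (j : ℕ) : Prop :=
  ((c A (j - 1)).im = 0 ∧ (c A j).im = 0 ∧ (c A (j + 1)).im = 0) ∧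
    (c A (j - 1)).re * (c A (j + 1)).re ≤ (c A j).re ^ 2

theorem newton_ends {n j : ℕ} (h1 : 1 ≤ j) (hn : j + 1 ≤ n) (h : j = 1 ∨ j + 1 = n)
    (A : Matrix (Fin n) (Fin n) ℂ) (hA : IsGKK A) : NewtonInequality A j := by
  refine ⟨⟨c_im hA.1 _, c_im hA.1 _, c_im hA.1 _⟩, ?_⟩
  rcases h with rfl | h
  · exact newton_first A hA hn
  · subst h
    exact newton_last A hA h1

/-- **Result.** Let `1 ≤ j ≤ n - 1`.

All stable GKK tau-matrices `A` of order `n` satisfy the Newton inequality `c_j ^ 2 ≥ c_{j-1} c_{j+1}`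
if and only if `j = 1` or `j = n - 1`.

If `j = 1` or `j = n - 1`, then all GKK matrices of order `n` satisfy it.

If `2 ≤ j ≤ n - 2`, then for every `ε > 0` there is a stable GKK tau-matrix of order `n`, with real
nonnegative entries, with `c_j ^ 2 < ε c_{j-1} c_{j+1}`; the numbers `c_i`, `0 ≤ i ≤ n`, are real and
positive. -/
theorem result (n j : ℕ) (h1 : 1 ≤ j) (hn : j + 1 ≤ n) :
    ((∀ A : Matrix (Fin n) (Fin n) ℂ, IsGKK A → IsTau A → IsStable A → NewtonInequality A j) ↔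
      (j = 1 ∨ j + 1 = n)) ∧
    ((j = 1 ∨ j + 1 = n) → ∀ A : Matrix (Fin n) (Fin n) ℂ, IsGKK A → NewtonInequality A j) ∧
    (2 ≤ j → j + 2 ≤ n → ∀ ε : ℝ, 0 < ε → ∃ A : Matrix (Fin n) (Fin n) ℂ,
      (∀ i k, (A i k).im = 0 ∧ 0 ≤ (A i k).re) ∧ IsGKK A ∧ IsTau A ∧ IsStable A ∧
      (∀ i ≤ n, (c A i).im = 0 ∧ 0 < (c A i).re) ∧
      (c A j).re ^ 2 < ε * ((c A (j - 1)).re * (c A (j + 1)).re)) := by
  refine ⟨⟨fun h => ?_, fun h A hA _ _ => newton_ends h1 hn h A hA⟩,
    fun h A hA => newton_ends h1 hn h A hA, fun hj hn' ε hε => ?_⟩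
  · by_contra hcon
    obtain ⟨A, -, hG, hT, hS, -, hA⟩ := fails (n := n) (j := j) (by omega) (by omega) one_pos
    have := (h A hG hT hS).2
    rw [one_mul] at hA
    exact absurd this (not_le.2 hA)
  · obtain ⟨A, hN, hG, hT, hS, hc, hA⟩ := fails hj hn' hε
    exact ⟨A, hN, hG, hT, hS, hc, hA⟩

end Pool.Agent.Results.MP_ba9f40_al.AllOrders
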